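import Pool.Agent.H78.RG.Tail

open MeasureTheory ProbabilityTheory Set Filter Topology
open scoped ENNReal NNReal

namespace Pool.Agent.H78.RG

theorem g1_integrable_exp_sq {s : ℝ} (hs : s < 1 / 2) :
    Integrable (fun x : ℝ => Real.exp (s * x ^ 2)) g1 := by
  rw [g1, gaussianReal_of_var_ne_zero _ one_ne_zero, integrable_withDensity_iff_integrable_smul₀'
    (measurable_gaussianPDF 0 1).aemeasurable (by simp [gaussianPDF])]
  simp_rw [toReal_gaussianPDF, phi_eq, smul_eq_mul]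
  have h := (integrable_exp_neg_mul_sq (b := 1 / 2 - s) (by linarith)).const_mul
    ((Real.sqrt (2 * Real.pi))⁻¹)
  refine h.congr (Eventually.of_forall fun x => ?_)
  simp only [phi]
  rw [mul_assoc, ← Real.exp_add]
  congr 2; ring

theorem g1_integral_exp_sq {s : ℝ} (hs : s < 1 / 2) :
    ∫ x, Real.exp (s * x ^ 2) ∂g1 = (Real.sqrt (1 - 2 * s))⁻¹ := by
  rw [g1, integral_gaussianReal_eq_integral_smul one_ne_zero]
  simp_rw [phi_eq, smul_eq_mul]
  have h := integral_gaussian (1 / 2 - s)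
  calc ∫ x, phi x * Real.exp (s * x ^ 2)
      = ∫ x, (Real.sqrt (2 * Real.pi))⁻¹ * Real.exp (-(1 / 2 - s) * x ^ 2) := by
        congr 1; funext x
        simp only [phi]
        rw [mul_assoc, ← Real.exp_add]
        congr 2; ring
    _ = (Real.sqrt (2 * Real.pi))⁻¹ * Real.sqrt (Real.pi / (1 / 2 - s)) := by
        rw [integral_const_mul, h]
    _ = (Real.sqrt (1 - 2 * s))⁻¹ := by
        rw [← Real.sqrt_inv, ← Real.sqrt_inv, ← Real.sqrt_mul (by positivity)]
        congr 1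
        have : (1 / 2 - s) ≠ 0 := by linarith
        have h2 : (1 - 2 * s) ≠ 0 := by intro h; apply this; linarith
        field_simp

variable {ι : Type*} [Fintype ι]

/-- the standard Gaussian law on `ι → ℝ` -/
noncomputable abbrev gp (ι : Type*) [Fintype ι] : Measure (ι → ℝ) := Measure.pi (fun _ : ι => g1)

/-- the square of the norm -/
def sq (z : ι → ℝ) : ℝ := ∑ i, z i ^ 2

theorem gp_integrable_exp_sq {s : ℝ} (hs : s < 1 / 2) :
    Integrable (fun z : ι → ℝ => Real.exp (s * sq z)) (gp ι) := by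
  have h := Integrable.fintype_prod (μ := fun _ : ι => g1)
    (f := fun (_ : ι) (x : ℝ) => Real.exp (s * x ^ 2)) (fun _ => g1_integrable_exp_sq hs)
  refine h.congr (Eventually.of_forall fun z => ?_)
  simp only [sq]
  rw [Finset.mul_sum, Real.exp_sum]

theorem gp_integral_exp_sq {s : ℝ} (hs : s < 1 / 2) :
    ∫ z, Real.exp (s * sq z) ∂(gp ι) = (Real.sqrt (1 - 2 * s))⁻¹ ^ (Fintype.card ι) := by
  have h := integral_fintype_prod_eq_prod (μ := fun _ : ι => g1) (𝕜 := ℝ)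
    (fun (_ : ι) (x : ℝ) => Real.exp (s * x ^ 2))
  simp_rw [g1_integral_exp_sq hs, Finset.prod_const, Finset.card_univ] at h
  rw [← h]
  congr 1; funext z
  simp only [sq]
  rw [Finset.mul_sum, Real.exp_sum]


theorem sqrt_inv_le_exp {u : ℝ} (h0 : 0 ≤ u) (h1 : u ≤ 1 / 2) :
    (Real.sqrt (1 - u))⁻¹ ≤ Real.exp (u / 2 + u ^ 2 / 2) := by
  have hpos : 0 < 1 - u := by linarith
  have hs : 0 < Real.sqrt (1 - u) := Real.sqrt_pos.2 hpos
  rw [inv_le_iff_one_le_mul₀ hs]
  have h2 : 1 ≤ (1 - u) * Real.exp (u + u ^ 2) := by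
    have h3 : 1 + (u + u ^ 2) + (u + u ^ 2) ^ 2 / 2 ≤ Real.exp (u + u ^ 2) :=
      Real.quadratic_le_exp_of_nonneg (by positivity)
    have h4 : 1 ≤ (1 - u) * (1 + (u + u ^ 2) + (u + u ^ 2) ^ 2 / 2) := by
      have h5 : 0 ≤ u ^ 2 / 2 * (1 - u - u ^ 2 - u ^ 3) := by
        apply mul_nonneg (by positivity)
        have : u ^ 2 ≤ 1 / 4 := by nlinarith
        have : u ^ 3 ≤ 1 / 8 := by nlinarith
        linarith
      nlinarith
    exact h4.trans (mul_le_mul_of_nonneg_left h3 hpos.le)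
  have h3 : Real.exp (u / 2 + u ^ 2 / 2) * Real.sqrt (1 - u) =
      Real.sqrt ((1 - u) * Real.exp (u + u ^ 2)) := by
    rw [Real.sqrt_mul hpos.le, mul_comm]
    congr 1
    have e : Real.exp (u + u ^ 2) =
        Real.exp (u / 2 + u ^ 2 / 2) * Real.exp (u / 2 + u ^ 2 / 2) := by
      rw [← Real.exp_add]; congr 1; ring
    rw [e, Real.sqrt_mul_self (Real.exp_pos _).le]
  rw [h3]
  exact Real.one_le_sqrt.2 h2

theorem sqrt_inv_le_exp' {u : ℝ} (h0 : 0 ≤ u) :
    (Real.sqrt (1 + u))⁻¹ ≤ Real.exp (-u / 2 + u ^ 2 / 4) := by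
  have hpos : 0 < 1 + u := by linarith
  have hs : 0 < Real.sqrt (1 + u) := Real.sqrt_pos.2 hpos
  rw [inv_le_iff_one_le_mul₀ hs]
  have h2 : 1 ≤ (1 + u) * Real.exp (-u + u ^ 2 / 2) := by
    have h3 : u - u ^ 2 / 2 ≤ Real.log (1 + u) := by
      refine le_trans ?_ (Real.le_log_one_add_of_nonneg h0)
      rw [le_div_iff₀ (by positivity)]
      nlinarith [pow_nonneg h0 3]
    have h4 : Real.exp (-u + u ^ 2 / 2) ≥ (1 + u)⁻¹ := by
      have e : (1 + u)⁻¹ = Real.exp (-Real.log (1 + u)) := by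
        rw [Real.exp_neg, Real.exp_log hpos]
      rw [e]
      exact Real.exp_le_exp.2 (by linarith)
    calc 1 = (1 + u) * (1 + u)⁻¹ := by field_simp
      _ ≤ _ := mul_le_mul_of_nonneg_left h4 hpos.le
  have h3 : Real.exp (-u / 2 + u ^ 2 / 4) * Real.sqrt (1 + u) =
      Real.sqrt ((1 + u) * Real.exp (-u + u ^ 2 / 2)) := by
    rw [Real.sqrt_mul hpos.le, mul_comm]
    congr 1
    have e : Real.exp (-u + u ^ 2 / 2) =
        Real.exp (-u / 2 + u ^ 2 / 4) * Real.exp (-u / 2 + u ^ 2 / 4) := by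
      rw [← Real.exp_add]; congr 1; ring
    rw [e, Real.sqrt_mul_self (Real.exp_pos _).le]
  rw [h3]
  exact Real.one_le_sqrt.2 h2

/-- upper tail of chi-square -/
theorem gp_upper {η : ℝ} (h0 : 0 ≤ η) (h1 : η ≤ 1) :
    (gp ι).real {z | (1 + η) * Fintype.card ι ≤ sq z} ≤
      Real.exp (-(Fintype.card ι * η ^ 2 / 8)) := by
  have h := measure_ge_le_exp_mul_mgf (μ := gp ι) (X := sq) (t := η / 4)
    ((1 + η) * Fintype.card ι) (by positivity) (gp_integrable_exp_sq (by linarith))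
  refine h.trans ?_
  have h2 : mgf sq (gp ι) (η / 4) = (Real.sqrt (1 - 2 * (η / 4)))⁻¹ ^ (Fintype.card ι) :=
    gp_integral_exp_sq (by linarith)
  rw [h2]
  have h3 := sqrt_inv_le_exp (u := 2 * (η / 4)) (by positivity) (by linarith)
  calc Real.exp (-(η / 4) * ((1 + η) * Fintype.card ι)) *
        (Real.sqrt (1 - 2 * (η / 4)))⁻¹ ^ (Fintype.card ι)
      ≤ Real.exp (-(η / 4) * ((1 + η) * Fintype.card ι)) *
        (Real.exp ((2 * (η / 4)) / 2 + (2 * (η / 4)) ^ 2 / 2)) ^ (Fintype.card ι) := by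
        gcongr
    _ = Real.exp (-(Fintype.card ι * η ^ 2 / 8)) := by
        rw [← Real.exp_nat_mul, ← Real.exp_add]
        congr 1; ring

/-- lower tail of chi-square -/
theorem gp_lower {η : ℝ} (h0 : 0 ≤ η) :
    (gp ι).real {z | sq z ≤ (1 - η) * Fintype.card ι} ≤
      Real.exp (-(Fintype.card ι * η ^ 2 / 4)) := by
  have h := measure_le_le_exp_mul_mgf (μ := gp ι) (X := sq) (t := -(η / 2))
    ((1 - η) * Fintype.card ι) (by linarith) (gp_integrable_exp_sq (by linarith))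
  refine h.trans ?_
  have h2 : mgf sq (gp ι) (-(η / 2)) = (Real.sqrt (1 - 2 * (-(η / 2))))⁻¹ ^ (Fintype.card ι) :=
    gp_integral_exp_sq (by linarith)
  rw [h2]
  have h3 := sqrt_inv_le_exp' (u := η) h0
  have e : 1 - 2 * (-(η / 2)) = 1 + η := by ring
  rw [e]
  calc Real.exp (- -(η / 2) * ((1 - η) * Fintype.card ι)) *
        (Real.sqrt (1 + η))⁻¹ ^ (Fintype.card ι)
      ≤ Real.exp (- -(η / 2) * ((1 - η) * Fintype.card ι)) *
        (Real.exp (-η / 2 + η ^ 2 / 4)) ^ (Fintype.card ι) := by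
        gcongr
    _ = Real.exp (-(Fintype.card ι * η ^ 2 / 4)) := by
        rw [← Real.exp_nat_mul, ← Real.exp_add]
        congr 1; ring

/-- concentration of chi-square -/
theorem gp_conc {η : ℝ} (h0 : 0 ≤ η) (h1 : η ≤ 1) :
    (gp ι).real {z | ¬ ((1 - η) * Fintype.card ι ≤ sq z ∧ sq z ≤ (1 + η) * Fintype.card ι)} ≤
      2 * Real.exp (-(Fintype.card ι * η ^ 2 / 8)) := by
  have h2 : {z : ι → ℝ | ¬ ((1 - η) * Fintype.card ι ≤ sq z ∧ sq z ≤ (1 + η) * Fintype.card ι)} ⊆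
      {z | sq z ≤ (1 - η) * Fintype.card ι} ∪ {z | (1 + η) * Fintype.card ι ≤ sq z} := by
    intro z hz
    simp only [mem_ofPred_eq, not_and_or, not_le] at hz
    rcases hz with hz | hz
    · exact Or.inl hz.le
    · exact Or.inr hz.le
  refine (measureReal_mono h2).trans ((measureReal_union_le _ _).trans ?_)
  have h3 := gp_lower (ι := ι) h0
  have h4 := gp_upper (ι := ι) h0 h1
  have h5 : Real.exp (-(Fintype.card ι * η ^ 2 / 4)) ≤ Real.exp (-(Fintype.card ι * η ^ 2 / 8)) := by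
    apply Real.exp_le_exp.2
    have : (0:ℝ) ≤ Fintype.card ι * η ^ 2 := by positivity
    linarith
  linarith

end Pool.Agent.H78.RG
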