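import Mathlib

/-! # One-dimensional Gaussian tails and the concentration of a chi-square variable -/

open MeasureTheory ProbabilityTheory Set Filter Topology
open scoped ENNReal NNReal

namespace Pool.Agent.H78.RG

/-- the standard Gaussian law on the line -/
noncomputable abbrev g1 : Measure ℝ := gaussianReal 0 1

/-- the standard density -/
noncomputable def phi (x : ℝ) : ℝ := (Real.sqrt (2 * Real.pi))⁻¹ * Real.exp (-x ^ 2 / 2)

theorem phi_eq (x : ℝ) : gaussianPDFReal 0 1 x = phi x := by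
  simp [gaussianPDFReal, phi]

theorem phi_pos (x : ℝ) : 0 < phi x := by
  unfold phi; positivity

theorem phi_continuous : Continuous phi := by
  unfold phi; fun_prop

theorem phi_integrable : Integrable phi := by
  have := integrable_gaussianPDFReal 0 1
  rwa [show gaussianPDFReal 0 1 = phi from funext phi_eq] at this

theorem phi_anti {x y : ℝ} (hx : 0 ≤ x) (hxy : x ≤ y) : phi y ≤ phi x := by
  unfold phi
  gcongr

/-- the upper tail of the standard Gaussian law -/
noncomputable def Q (x : ℝ) : ℝ := g1.real (Ici x)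

theorem Q_eq (x : ℝ) : Q x = ∫ t in Ici x, phi t := by
  unfold Q Measure.real
  rw [gaussianReal_apply_eq_integral 0 one_ne_zero, ENNReal.toReal_ofReal]
  · simp_rw [phi_eq]
  · exact integral_nonneg fun t => gaussianPDFReal_nonneg 0 1 t

theorem Q_eq_Ioi (x : ℝ) : Q x = ∫ t in Ioi x, phi t := by
  rw [Q_eq, integral_Ici_eq_integral_Ioi]

theorem Q_nonneg (x : ℝ) : 0 ≤ Q x := measureReal_nonneg

theorem Q_le_one (x : ℝ) : Q x ≤ 1 := measureReal_le_one

theorem Q_anti : Antitone Q := by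
  intro x y h
  exact measureReal_mono (Ici_subset_Ici.2 h)

theorem Q_sub {x y : ℝ} : Q x - Q y = ∫ t in x..y, phi t := by
  rw [Q_eq_Ioi, Q_eq_Ioi]
  exact (intervalIntegral.integral_Ioi_sub_Ioi' phi_integrable.integrableOn
    phi_integrable.integrableOn)

theorem Q_sub_le {x y : ℝ} (hx : 0 ≤ x) (h : x ≤ y) : Q x - Q y ≤ (y - x) * phi x := by
  rw [Q_sub]
  calc ∫ t in x..y, phi t ≤ ∫ _t in x..y, phi x :=
        intervalIntegral.integral_mono_on h (phi_continuous.intervalIntegrable _ _)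
          (continuous_const.intervalIntegrable _ _) (fun t ht => phi_anti hx ht.1)
    _ = (y - x) * phi x := by simp

theorem le_Q_sub {x y : ℝ} (hx : 0 ≤ x) (h : x ≤ y) : (y - x) * phi y ≤ Q x - Q y := by
  rw [Q_sub]
  calc (y - x) * phi y = ∫ _t in x..y, phi y := by simp
    _ ≤ ∫ t in x..y, phi t :=
        intervalIntegral.integral_mono_on h (continuous_const.intervalIntegrable _ _)
          (phi_continuous.intervalIntegrable _ _) (fun t ht => phi_anti (hx.trans ht.1) ht.2)

/-- Chernoff bound -/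
theorem Q_le {x : ℝ} (hx : 0 ≤ x) : Q x ≤ Real.exp (-x ^ 2 / 2) := by
  have h := measure_ge_le_exp_mul_mgf (μ := g1) (X := fun t => t) x hx
    (integrable_exp_mul_gaussianReal x)
  have h2 : mgf (fun t => t) g1 x = Real.exp (x ^ 2 / 2) := by
    rw [mgf_fun_id_gaussianReal]; simp
  rw [h2, ← Real.exp_add] at h
  refine le_trans (le_of_eq ?_) (h.trans (le_of_eq ?_))
  · rfl
  · congr 1; ring

/-- lower bound of the tail by the density -/
theorem phi_le {x : ℝ} (hx : 0 ≤ x) : phi x ≤ 5 * (1 + x) * Q x := by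
  have h1 : 0 < 1 + x := by linarith
  have h := le_Q_sub (x := x) (y := x + 1 / (1 + x)) hx (by
    have : 0 < 1 / (1 + x) := by positivity
    linarith)
  have h2 : phi x ≤ 5 * phi (x + 1 / (1 + x)) := by
    unfold phi
    have h3 : -x ^ 2 / 2 ≤ 3 / 2 + -(x + 1 / (1 + x)) ^ 2 / 2 := by
      have h4 : x * (1 / (1 + x)) ≤ 1 := by
        rw [mul_one_div, div_le_one h1]; linarith
      have h5 : 1 / (1 + x) ≤ 1 := by
        rw [div_le_one h1]; linarith
      have h6 : 0 < 1 / (1 + x) := by positivity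
      nlinarith
    have h7 : Real.exp (-x ^ 2 / 2) ≤ 5 * Real.exp (-(x + 1 / (1 + x)) ^ 2 / 2) := by
      calc Real.exp (-x ^ 2 / 2) ≤ Real.exp (3 / 2 + -(x + 1 / (1 + x)) ^ 2 / 2) :=
            Real.exp_le_exp.2 h3
        _ = Real.exp (3 / 2) * Real.exp (-(x + 1 / (1 + x)) ^ 2 / 2) := by rw [Real.exp_add]
        _ ≤ 5 * Real.exp (-(x + 1 / (1 + x)) ^ 2 / 2) := by
            gcongr
            have h8 : Real.exp (3 / 2) ^ 2 ≤ 5 ^ 2 := by
              rw [← Real.exp_nat_mul]
              norm_num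
              have h9 : Real.exp 3 = Real.exp 1 ^ 3 := by rw [← Real.exp_nat_mul]; norm_num
              rw [h9]
              have := Real.exp_one_lt_d9
              calc Real.exp 1 ^ 3 ≤ 2.7182818286 ^ 3 := by gcongr
                _ ≤ 25 := by norm_num
            exact (abs_le_of_sq_le_sq' h8 (by norm_num)).2
    calc (Real.sqrt (2 * Real.pi))⁻¹ * Real.exp (-x ^ 2 / 2)
        ≤ (Real.sqrt (2 * Real.pi))⁻¹ * (5 * Real.exp (-(x + 1 / (1 + x)) ^ 2 / 2)) := by gcongr
      _ = 5 * ((Real.sqrt (2 * Real.pi))⁻¹ * Real.exp (-(x + 1 / (1 + x)) ^ 2 / 2)) := by ring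
  have h3 : (1 / (1 + x)) * phi (x + 1 / (1 + x)) ≤ Q x := by
    have := Q_nonneg (x + 1 / (1 + x))
    calc (1 / (1 + x)) * phi (x + 1 / (1 + x))
        = (x + 1 / (1 + x) - x) * phi (x + 1 / (1 + x)) := by ring
      _ ≤ Q x - Q (x + 1 / (1 + x)) := h
      _ ≤ Q x := by linarith
  calc phi x ≤ 5 * phi (x + 1 / (1 + x)) := h2
    _ = 5 * (1 + x) * ((1 / (1 + x)) * phi (x + 1 / (1 + x))) := by
        field_simp
    _ ≤ 5 * (1 + x) * Q x := by gcongr

theorem Q_pos (x : ℝ) : 0 < Q x := by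
  rcases le_or_gt 0 x with hx | hx
  · have h := phi_le hx
    have h2 := phi_pos x
    have h3 : 0 < 1 + x := by linarith
    by_contra hcon
    push Not at hcon
    have : 5 * (1 + x) * Q x ≤ 0 := mul_nonpos_of_nonneg_of_nonpos (by positivity) hcon
    linarith
  · have h := phi_le (le_refl (0:ℝ))
    have h2 := phi_pos 0
    have h3 := Q_anti hx.le
    linarith

/-- the tail varies slowly -/
theorem Q_ge_of_le {x y : ℝ} (hx : 0 ≤ x) (h : x ≤ y) :
    Q x * (1 - 5 * (1 + x) * (y - x)) ≤ Q y := by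
  have h1 := Q_sub_le hx h
  have h2 := phi_le hx
  have h3 : (y - x) * phi x ≤ (y - x) * (5 * (1 + x) * Q x) :=
    mul_le_mul_of_nonneg_left h2 (by linarith)
  linarith

/-- lower bound of the tail -/
theorem le_Q {x : ℝ} (hx : 0 ≤ x) : Real.exp (-x ^ 2 / 2) / (13 * (1 + x)) ≤ Q x := by
  have h := phi_le hx
  have h1 : 0 < 1 + x := by linarith
  have h2 : Real.exp (-x ^ 2 / 2) ≤ (13 / 5) * phi x := by
    unfold phi
    have h3 : Real.sqrt (2 * Real.pi) ≤ 13 / 5 := by
      rw [Real.sqrt_le_left (by norm_num)]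
      have := Real.pi_lt_d4
      norm_num
      linarith
    have h4 : 0 < Real.sqrt (2 * Real.pi) := by positivity
    have h5 : 1 ≤ (13 / 5) * (Real.sqrt (2 * Real.pi))⁻¹ := by
      rw [← div_eq_mul_inv, le_div_iff₀ h4]; linarith
    have h6 := Real.exp_pos (-x ^ 2 / 2)
    nlinarith
  rw [div_le_iff₀ (by positivity)]
  nlinarith

end Pool.Agent.H78.RG
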